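import Pool.Agent.N227.LL.TaskAvg

/-!
# LL/16: sums, images and extensions of admissible representations
-/

noncomputable section

namespace Pool.Agent.N227.LL

open N589LL

variable {G : Type} [Group G] [TopologicalSpace G]

omit [TopologicalSpace G] in
lemma relIndex_inf_ne_zero {U C H : Subgroup G} (h : U.relIndex C ≠ 0) :
    U.relIndex (H ⊓ C) ≠ 0 :=
  fun h0 => h (Subgroup.relIndex_eq_zero_of_le_right inf_le_right h0)

omit [TopologicalSpace G] in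
lemma span_le_of_inv {E : Type} [AddCommGroup E] [Module ℂ E] (ρ : Representation ℂ G E)
    (W : Submodule ℂ E) (hW : ∀ g, ∀ x ∈ W, ρ g x ∈ W) {C : Subgroup G} {x : E} (hx : x ∈ W) :
    Submodule.span ℂ {y | ∃ c ∈ C, y = ρ c x} ≤ W := by
  rw [Submodule.span_le]
  rintro y ⟨c, -, rfl⟩
  exact hW c x hx

end Pool.Agent.N227.LL

namespace N589LL

open Pool.Agent.N227.LL

/-- LL/16. -/
theorem TaskAdm_proof : TaskAdm := by
  intro G _ _ _ C hCo hC E _ _ ρ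
  have key : ∀ H : Subgroup G, IsOpen (H : Set G) → IsOpen ((H ⊓ C : Subgroup G) : Set G) ∧
      ∀ U : Subgroup G, IsOpen (U : Set G) → U.relIndex (H ⊓ C) ≠ 0 := fun H hH =>
    ⟨hH.inter hCo, fun U hU => relIndex_inf_ne_zero (hC U hU)⟩
  refine ⟨?_, ?_, ?_⟩
  · rintro W₁ W₂ h₁ h₂ ⟨hs₁, ha₁⟩ ⟨hs₂, ha₂⟩
    refine ⟨fun x hx => ?_, fun H hH => ?_⟩
    · obtain ⟨x₁, hx₁, x₂, hx₂, rfl⟩ := Submodule.mem_sup.1 hx
      obtain ⟨U, hU, hU'⟩ := hs₁ x₁ hx₁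
      obtain ⟨V, hV, hV'⟩ := hs₂ x₂ hx₂
      exact ⟨U ⊓ V, hU.inter hV, add_mem (fun c hc => hU' c hc.1) (fun c hc => hV' c hc.2)⟩
    · obtain ⟨hHo, hHi⟩ := key H hH
      obtain ⟨P, hP⟩ := taskAvg_strong G (H ⊓ C) hHi E ρ
      have := ha₁ _ hHo
      have := ha₂ _ hHo
      have hle : (W₁ ⊔ W₂) ⊓ fixedBy ρ H ≤
          (W₁ ⊓ fixedBy ρ (H ⊓ C)) ⊔ (W₂ ⊓ fixedBy ρ (H ⊓ C)) := by
        rintro x ⟨hx, hxH⟩
        obtain ⟨x₁, hx₁, x₂, hx₂, rfl⟩ := Submodule.mem_sup.1 hx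
        have e := (hP (x₁ + x₂) ⟨H, hH, hxH⟩).2.2.1 (fun c hc => hxH c hc.1)
        obtain ⟨a1, a2, -⟩ := hP x₁ (hs₁ x₁ hx₁)
        obtain ⟨b1, b2, -⟩ := hP x₂ (hs₂ x₂ hx₂)
        rw [← e, map_add]
        exact Submodule.add_mem_sup ⟨span_le_of_inv ρ W₁ h₁ hx₁ a1, a2⟩
          ⟨span_le_of_inv ρ W₂ h₂ hx₂ b1, b2⟩
      exact Submodule.finiteDimensional_of_le hle
  · rintro E' _ _ ρ' T hT W hW ⟨hs, ha⟩
    refine ⟨?_, fun H hH => ?_⟩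
    · rintro _ ⟨x, hx, rfl⟩
      obtain ⟨U, hU, hU'⟩ := hs x hx
      exact ⟨U, hU, fun c hc => by rw [← hT, hU' c hc]⟩
    · obtain ⟨hHo, hHi⟩ := key H hH
      obtain ⟨P, hP⟩ := taskAvg_strong G (H ⊓ C) hHi E ρ
      obtain ⟨P', hP'⟩ := taskAvg_strong G (H ⊓ C) hHi E' ρ'
      have := ha _ hHo
      have hle : W.map T ⊓ fixedBy ρ' H ≤ (W ⊓ fixedBy ρ (H ⊓ C)).map T := by
        rintro _ ⟨⟨x, hx, rfl⟩, hxH⟩
        obtain ⟨U, hU, hU'⟩ := hs x hx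
        obtain ⟨a1, a2, -, -, a5⟩ := hP x ⟨U, hU, hU'⟩
        obtain ⟨-, -, b3, -, b5⟩ := hP' (T x) ⟨U, hU, fun c hc => by rw [← hT, hU' c hc]⟩
        have hi : (U.subgroupOf (H ⊓ C)).index ≠ 0 := hHi U hU
        have e1 := a5 _ hi (restrict_fixed ρ _ hU')
        have e2 := b5 _ hi (restrict_fixed ρ' _ (fun c hc => by rw [← hT, hU' c hc]))
        refine ⟨P x, ⟨span_le_of_inv ρ W hW hx a1, a2⟩, ?_⟩
        have e3 := b3 (fun c hc => hxH c hc.1)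
        have e4 := map_avg (ρ.comp (H ⊓ C).subtype) (ρ'.comp (H ⊓ C).subtype) T
          (fun c y => hT (c : G) y) hi x
        rw [e1, e4, ← e2, e3]
      exact Submodule.finiteDimensional_of_le hle
  · rintro E' _ _ ρ' T hT W hs ⟨hs₁, ha₁⟩ ⟨hs₂, ha₂⟩
    refine ⟨hs, fun H hH => ?_⟩
    have h1 := ha₁ H hH
    have h2 := ha₂ H hH
    rw [FiniteDimensional, Module.Finite.iff_fg] at h1 h2 ⊢
    refine Submodule.fg_of_fg_map_of_fg_inf_ker T ?_ ?_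
    · have : FiniteDimensional ℂ ↥(W.map T ⊓ fixedBy ρ' H) := ha₂ H hH
      have hle : (W ⊓ fixedBy ρ H).map T ≤ W.map T ⊓ fixedBy ρ' H := by
        rintro _ ⟨x, ⟨hx, hxH⟩, rfl⟩
        exact ⟨⟨x, hx, rfl⟩, fun c hc => by rw [← hT, hxH c hc]⟩
      exact Module.Finite.iff_fg.1 (Submodule.finiteDimensional_of_le hle)
    · have e : W ⊓ fixedBy ρ H ⊓ LinearMap.ker T = W ⊓ LinearMap.ker T ⊓ fixedBy ρ H := by
        rw [inf_assoc, inf_assoc, inf_comm (fixedBy ρ H)]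
      rw [e]
      exact h1

end N589LL
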