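import Pool.Agent.N589.LL.Tasks

/-!
# LL/15 and tools for LL/16: averaging over a subgroup
-/

noncomputable section

namespace Pool.Agent.N227.LL

open N589LL

section abs

variable {C : Type} [Group C] {E : Type} [AddCommGroup E] [Module ℂ E]

/-- The average of the vector `x` over the cosets of `H` in `C`. -/
def avg (ρ : Representation ℂ C E) (H : Subgroup C) (x : E) : E :=
  (H.index : ℂ)⁻¹ • ∑ᶠ q : C ⧸ H, ρ q.out x

lemma finite_quot {H : Subgroup C} (h : H.index ≠ 0) : Finite (C ⧸ H) :=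
  Nat.finite_of_card_ne_zero h

lemma rho_out (ρ : Representation ℂ C E) {H : Subgroup C} {x : E} (hx : x ∈ fixedBy ρ H) (c : C) :
    ρ ((QuotientGroup.mk c : C ⧸ H).out) x = ρ c x := by
  obtain ⟨h, hh⟩ := QuotientGroup.mk_out_eq_mul H c
  rw [hh, map_mul]
  exact congrArg _ (hx h h.2)

lemma avg_add (ρ : Representation ℂ C E) {H : Subgroup C} (h : H.index ≠ 0) (x y : E) :
    avg ρ H (x + y) = avg ρ H x + avg ρ H y := by
  have := finite_quot h
  unfold avg
  rw [← smul_add, ← finsum_add_distrib (Set.toFinite _) (Set.toFinite _)]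
  simp

lemma avg_smul (ρ : Representation ℂ C E) {H : Subgroup C} (h : H.index ≠ 0) (a : ℂ) (x : E) :
    avg ρ H (a • x) = a • avg ρ H x := by
  have := finite_quot h
  have := Fintype.ofFinite (C ⧸ H)
  unfold avg
  rw [finsum_eq_sum_of_fintype, finsum_eq_sum_of_fintype, smul_comm a]
  simp only [map_smul, Finset.smul_sum]

lemma avg_mem_span (ρ : Representation ℂ C E) {H : Subgroup C} (h : H.index ≠ 0) (x : E) :
    avg ρ H x ∈ Submodule.span ℂ {y | ∃ c, y = ρ c x} := by
  have := finite_quot h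
  have := Fintype.ofFinite (C ⧸ H)
  unfold avg
  rw [finsum_eq_sum_of_fintype]
  exact Submodule.smul_mem _ _ (Submodule.sum_mem _ fun q _ => Submodule.subset_span ⟨_, rfl⟩)

lemma avg_fixed (ρ : Representation ℂ C E) {H : Subgroup C} (h : H.index ≠ 0) {x : E}
    (hx : x ∈ fixedBy ρ H) (c : C) : ρ c (avg ρ H x) = avg ρ H x := by
  have := finite_quot h
  have := Fintype.ofFinite (C ⧸ H)
  unfold avg
  rw [map_smul, finsum_eq_sum_of_fintype, map_sum]
  congr 1
  have key : ∀ q : C ⧸ H, ρ c (ρ q.out x) = ρ ((c • q).out) x := by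
    intro q
    rw [← Module.End.mul_apply, ← map_mul, ← rho_out ρ hx (c * q.out)]
    congr 3
    conv_rhs => rw [← QuotientGroup.out_eq' q]
    rfl
  rw [Finset.sum_congr rfl fun q _ => key q]
  exact Fintype.sum_equiv (MulAction.toPerm c) _ _ fun q => rfl

lemma avg_of_fixed (ρ : Representation ℂ C E) {H : Subgroup C} (h : H.index ≠ 0) {x : E}
    (hx : ∀ c, ρ c x = x) : avg ρ H x = x := by
  have := finite_quot h
  have := Fintype.ofFinite (C ⧸ H)
  unfold avg
  rw [finsum_eq_sum_of_fintype]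
  simp only [hx, Finset.sum_const, Finset.card_univ]
  rw [← Nat.card_eq_fintype_card, ← Subgroup.index, ← Nat.cast_smul_eq_nsmul ℂ, smul_smul,
    inv_mul_cancel₀ (by exact_mod_cast h), one_smul]

lemma avg_of_le (ρ : Representation ℂ C E) {N M : Subgroup C} (hN : N.index ≠ 0) (hle : N ≤ M)
    {x : E} (hx : x ∈ fixedBy ρ M) : avg ρ N x = avg ρ M x := by
  have hM : M.index ≠ 0 := fun h0 => hN (by
    have := Subgroup.index_dvd_of_le hle
    rw [h0] at this
    exact zero_dvd_iff.1 this)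
  have hNM : N.relIndex M ≠ 0 := fun h0 => hN (by
    rw [← Subgroup.relIndex_mul_index hle, h0, zero_mul])
  have := finite_quot hN
  have := finite_quot hM
  have := Fintype.ofFinite (C ⧸ N)
  have := Fintype.ofFinite (C ⧸ M)
  have hf : Finite (↥M ⧸ N.subgroupOf M) := finite_quot hNM
  have := Fintype.ofFinite (↥M ⧸ N.subgroupOf M)
  unfold avg
  rw [finsum_eq_sum_of_fintype, finsum_eq_sum_of_fintype]
  let e := Subgroup.quotientEquivProdOfLE hle
  have key : ∀ q : C ⧸ N, ρ q.out x = ρ ((e q).1.out) x := by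
    intro q
    conv_rhs => rw [← QuotientGroup.out_eq' q]
    exact (rho_out ρ hx _).symm
  rw [Finset.sum_congr rfl fun q _ => key q]
  have h1 : ∑ q : C ⧸ N, ρ ((e q).1.out) x =
      ∑ p : (C ⧸ M) × (↥M ⧸ N.subgroupOf M), ρ (p.1.out) x :=
    Fintype.sum_equiv e _ _ fun q => rfl
  rw [h1, Fintype.sum_prod_type]
  simp only [Finset.sum_const, Finset.card_univ]
  rw [← Finset.smul_sum, ← Nat.card_eq_fintype_card]
  have h2 : Nat.card (↥M ⧸ N.subgroupOf M) = N.relIndex M := rfl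
  rw [h2, ← Nat.cast_smul_eq_nsmul ℂ, smul_smul]
  congr 1
  rw [← Subgroup.relIndex_mul_index hle, Nat.cast_mul]
  have h3 : (N.relIndex M : ℂ) ≠ 0 := by exact_mod_cast hNM
  have h4 : (M.index : ℂ) ≠ 0 := by exact_mod_cast hM
  field_simp

/-- The average does not depend on the subgroup. -/
lemma avg_eq (ρ : Representation ℂ C E) {H H' : Subgroup C} (h : H.index ≠ 0) (h' : H'.index ≠ 0)
    {x : E} (hx : x ∈ fixedBy ρ H) (hx' : x ∈ fixedBy ρ H') : avg ρ H x = avg ρ H' x := by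
  have h0 : (H ⊓ H').index ≠ 0 := Subgroup.index_inf_ne_zero h h'
  rw [← avg_of_le ρ h0 inf_le_left hx, ← avg_of_le ρ h0 inf_le_right hx']

lemma fixedBy_inf_left (ρ : Representation ℂ C E) {H H' : Subgroup C} {x : E}
    (hx : x ∈ fixedBy ρ H) : x ∈ fixedBy ρ (H ⊓ H') := fun c hc => hx c hc.1

lemma fixedBy_inf_right (ρ : Representation ℂ C E) {H H' : Subgroup C} {x : E}
    (hx : x ∈ fixedBy ρ H') : x ∈ fixedBy ρ (H ⊓ H') := fun c hc => hx c hc.2

end abs

section top

variable {G : Type} [Group G] [TopologicalSpace G] {E : Type} [AddCommGroup E] [Module ℂ E]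

/-- The subspace of smooth vectors. -/
def smoothVec (ρ : Representation ℂ G E) : Submodule ℂ E where
  carrier := {x | ∃ U : Subgroup G, IsOpen (U : Set G) ∧ x ∈ fixedBy ρ U}
  zero_mem' := ⟨⊤, isOpen_univ, zero_mem _⟩
  add_mem' := by
    rintro a b ⟨U, hU, ha⟩ ⟨V, hV, hb⟩
    exact ⟨U ⊓ V, hU.inter hV, add_mem (fixedBy_inf_left ρ ha) (fixedBy_inf_right ρ hb)⟩
  smul_mem' := by
    rintro c a ⟨U, hU, ha⟩
    exact ⟨U, hU, Submodule.smul_mem _ _ ha⟩

omit [TopologicalSpace G] in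
lemma restrict_fixed (ρ : Representation ℂ G E) (C : Subgroup G) {U : Subgroup G} {x : E}
    (hx : x ∈ fixedBy ρ U) : x ∈ fixedBy (ρ.comp C.subtype) (U.subgroupOf C) :=
  fun c hc => hx c hc

/-- The averaging operator with its defining property. -/
theorem exists_avg (C : Subgroup G) (hC : ∀ U : Subgroup G, IsOpen (U : Set G) → U.relIndex C ≠ 0)
    (ρ : Representation ℂ G E) :
    ∃ P : E →ₗ[ℂ] E, ∀ x, (∃ U : Subgroup G, IsOpen (U : Set G) ∧ x ∈ fixedBy ρ U) →
      ∀ H : Subgroup C, H.index ≠ 0 → x ∈ fixedBy (ρ.comp C.subtype) H →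
        P x = avg (ρ.comp C.subtype) H x := by
  classical
  set σ := ρ.comp C.subtype with hσ
  let U : smoothVec ρ → Subgroup G := fun x => Classical.choose x.2
  have hU : ∀ x, IsOpen (U x : Set G) := fun x => (Classical.choose_spec x.2).1
  have hx : ∀ x : smoothVec ρ, (x : E) ∈ fixedBy ρ (U x) := fun x => (Classical.choose_spec x.2).2
  let HH : smoothVec ρ → Subgroup C := fun x => (U x).subgroupOf C
  have hi : ∀ x, (HH x).index ≠ 0 := fun x => hC _ (hU x)
  have hf : ∀ x, (x : E) ∈ fixedBy σ (HH x) := fun x => restrict_fixed ρ C (hx x)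
  let P0 : smoothVec ρ →ₗ[ℂ] E :=
    { toFun := fun x => avg σ (HH x) x
      map_add' := by
        intro x y
        have hi1 : (HH x ⊓ HH y).index ≠ 0 := Subgroup.index_inf_ne_zero (hi x) (hi y)
        have e1 : avg σ (HH x) (x : E) = avg σ (HH x ⊓ HH y) (x : E) :=
          avg_eq σ (hi x) hi1 (hf x) (fixedBy_inf_left σ (hf x))
        have e2 : avg σ (HH y) (y : E) = avg σ (HH x ⊓ HH y) (y : E) :=
          avg_eq σ (hi y) hi1 (hf y) (fixedBy_inf_right σ (hf y))
        have e3 : avg σ (HH (x + y)) ((x + y : smoothVec ρ) : E) =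
            avg σ (HH x ⊓ HH y) ((x + y : smoothVec ρ) : E) :=
          avg_eq σ (hi _) hi1 (hf _)
            (add_mem (fixedBy_inf_left σ (hf x)) (fixedBy_inf_right σ (hf y)))
        rw [e1, e2, e3, Submodule.coe_add, avg_add σ hi1]
      map_smul' := by
        intro a x
        have e3 : avg σ (HH (a • x)) ((a • x : smoothVec ρ) : E) =
            avg σ (HH x) ((a • x : smoothVec ρ) : E) :=
          avg_eq σ (hi _) (hi x) (hf _) (Submodule.smul_mem _ _ (hf x))
        rw [e3, Submodule.coe_smul, avg_smul σ (hi x)]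
        rfl }
  obtain ⟨P, hP⟩ := LinearMap.exists_extend P0
  refine ⟨P, fun x hx1 H hH hxH => ?_⟩
  have e : P x = P0 ⟨x, hx1⟩ := by rw [← hP]; rfl
  rw [e]
  exact avg_eq σ (hi _) hH (hf ⟨x, hx1⟩) hxH

/-- Averaging commutes with intertwining maps. -/
lemma map_avg {C : Type} [Group C] {E' : Type} [AddCommGroup E'] [Module ℂ E']
    (σ : Representation ℂ C E) (σ' : Representation ℂ C E') (T : E →ₗ[ℂ] E')
    (hT : ∀ c x, T (σ c x) = σ' c (T x)) {H : Subgroup C} (h : H.index ≠ 0) (x : E) :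
    T (avg σ H x) = avg σ' H (T x) := by
  have := finite_quot h
  have := Fintype.ofFinite (C ⧸ H)
  unfold avg
  rw [finsum_eq_sum_of_fintype, finsum_eq_sum_of_fintype, map_smul, map_sum]
  simp only [hT]

end top

/-- LL/15. -/
theorem taskAvg_strong (G : Type) [Group G] [TopologicalSpace G] (C : Subgroup G)
    (hC : ∀ U : Subgroup G, IsOpen (U : Set G) → U.relIndex C ≠ 0)
    (E : Type) [AddCommGroup E] [Module ℂ E] (ρ : Representation ℂ G E) :
    ∃ P : E →ₗ[ℂ] E, ∀ x, (∃ U : Subgroup G, IsOpen (U : Set G) ∧ x ∈ fixedBy ρ U) →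
      P x ∈ Submodule.span ℂ {y | ∃ c ∈ C, y = ρ c x} ∧
      P x ∈ fixedBy ρ C ∧
      (x ∈ fixedBy ρ C → P x = x) ∧
      (∀ g, (∀ U : Subgroup G, IsOpen (U : Set G) → ∃ V : Subgroup G, IsOpen (V : Set G) ∧
          ∀ v ∈ V, g⁻¹ * v * g ∈ U) →
        (∀ c ∈ C, g * c = c * g) → P (ρ g x) = ρ g (P x)) ∧
      ∀ H : Subgroup C, H.index ≠ 0 → x ∈ fixedBy (ρ.comp C.subtype) H →
        P x = avg (ρ.comp C.subtype) H x := by
  obtain ⟨P, hP⟩ := exists_avg C hC ρ
  refine ⟨P, fun x hx => ?_⟩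
  obtain ⟨U, hU, hxU⟩ := hx
  have hi : (U.subgroupOf C).index ≠ 0 := hC U hU
  have hf := restrict_fixed ρ C hxU
  have e := hP x ⟨U, hU, hxU⟩ (U.subgroupOf C) hi hf
  refine ⟨?_, ?_, ?_, ?_, hP x ⟨U, hU, hxU⟩⟩
  · rw [e]
    refine Submodule.span_mono ?_ (avg_mem_span _ hi x)
    rintro y ⟨c, rfl⟩
    exact ⟨c, c.2, rfl⟩
  · intro c hc
    rw [e]
    exact avg_fixed (ρ.comp C.subtype) hi hf ⟨c, hc⟩
  · intro hxC
    rw [e]
    exact avg_of_fixed _ hi fun c => hxC c c.2
  · intro g hg hcomm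
    obtain ⟨V, hV, hVU⟩ := hg U hU
    have hgx : ρ g x ∈ fixedBy ρ V := by
      intro v hv
      have h1 : v * g = g * (g⁻¹ * v * g) := by group
      rw [← Module.End.mul_apply, ← map_mul, h1, map_mul, Module.End.mul_apply,
        hxU _ (hVU v hv)]
    have hgf : ρ g x ∈ fixedBy (ρ.comp C.subtype) (U.subgroupOf C) := by
      intro c hc
      change ρ (c : G) (ρ g x) = ρ g x
      rw [← Module.End.mul_apply, ← map_mul, ← hcomm c c.2, map_mul, Module.End.mul_apply,
        hxU c hc]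
    rw [hP (ρ g x) ⟨V, hV, hgx⟩ (U.subgroupOf C) hi hgf, e]
    symm
    refine map_avg (ρ.comp C.subtype) (ρ.comp C.subtype) (ρ g) (fun c y => ?_) hi x
    change ρ g (ρ (c : G) y) = ρ (c : G) (ρ g y)
    rw [← Module.End.mul_apply, ← map_mul, hcomm c c.2, map_mul, Module.End.mul_apply]

end Pool.Agent.N227.LL

namespace N589LL

/-- LL/15. -/
theorem TaskAvg_proof : TaskAvg := by
  intro G _ _ _ C hC E _ _ ρ
  obtain ⟨P, hP⟩ := Pool.Agent.N227.LL.taskAvg_strong G C hC E ρ
  refine ⟨P, fun x hx => ?_⟩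
  obtain ⟨h1, h2, h3, h4, -⟩ := hP x hx
  refine ⟨h1, h2, h3, fun g hg => h4 g (fun U hU => ?_) hg⟩
  refine ⟨U.comap (MulAut.conj g⁻¹).toMonoidHom, ?_, fun v hv => ?_⟩
  · have hc : Continuous fun v : G => g⁻¹ * v * g := by fun_prop
    have := hU.preimage hc
    convert this using 1
    ext v
    simp
  · simpa using hv

end N589LL
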